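import Pool.Agent.BER.StmtsE

/-!
# Squad BER, row SHB: every spherical shell
-/

set_option autoImplicit false

namespace Pool.Agent.BER.H12

open Set Filter Topology MeasureTheory
open scoped InnerProductSpace ENNReal
open Pool.Agent.BE01 Pool.Agent.BEL Pool.Agent.BEF Pool.Agent.BEN Pool.Agent.BEH Pool.Agent.BEG
open Pool.Agent.BER

/-- A bound valid for finitely many factors. -/
theorem fin_bd (P : ℕ → ℝ → Prop) (m : ℕ)
    (h : ∀ n : ℕ, 2 ≤ n → ∃ X1 : ℝ, ∀ x : ℝ, X1 ≤ x → P n x) :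
    ∃ X : ℝ, 0 ≤ X ∧ ∀ n : ℕ, 2 ≤ n → n ≤ m → ∀ x : ℝ, X ≤ x → P n x := by
  induction m with
  | zero => exact ⟨0, le_rfl, fun n h2 h0 => by omega⟩
  | succ m ih =>
    obtain ⟨X, hX0, hX⟩ := ih
    by_cases hm : 2 ≤ m + 1
    · obtain ⟨X1, hX1⟩ := h (m + 1) hm
      refine ⟨max X X1, le_max_of_le_left hX0, fun n h2 hn x hx => ?_⟩
      rcases Nat.lt_or_ge n (m + 1) with h' | h'
      · exact hX n h2 (by omega) x (le_trans (le_max_left _ _) hx)
      · have : n = m + 1 := by omega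
        subst this
        exact hX1 x (le_trans (le_max_right _ _) hx)
    · exact ⟨X, hX0, fun n h2 hn x hx => by omega⟩

/-- The set of the products `s L` for the radial frequencies of the shell. -/
def Zsh (c a b : ℝ) : Set ℝ := {x | 0 < x ∧ ∃ y y' : ℝ → ℝ, Bes c y y' ∧
  y (x / (b - a) * a) = 0 ∧ y (x / (b - a) * b) = 0}

theorem zas_sh (yas : YasStmt) (c a b : ℝ) (ha : 0 < a) (hab : a < b) :
    Zas (-(c * (b - a) ^ 2 / (a * b))) 0 (Zsh c a b) := by
  obtain ⟨C, X0, hC, hX0, hy⟩ := yas c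
  have hL : 0 < b - a := by linarith
  have hb : 0 < b := by linarith
  refine ⟨2 * C * (b - a) ^ 2 / a ^ 2, max 1 (X0 * (b - a) / a), by positivity,
    le_max_left _ _, ?_⟩
  rintro x ⟨hx0, y, y', hB, h1, h2⟩ hx
  obtain ⟨β, hβ⟩ := hy y y' hB
  have hs : 0 < x / (b - a) := by positivity
  have hxa : X0 ≤ x / (b - a) * a := by
    have h := le_trans (le_max_right _ _) hx
    rw [div_le_iff₀ ha] at h
    rw [div_mul_eq_mul_div, le_div_iff₀ hL]
    exact h
  have hxb : X0 ≤ x / (b - a) * b :=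
    le_trans hxa (mul_le_mul_of_nonneg_left hab.le hs.le)
  obtain ⟨k1, hk1⟩ := hβ _ hxa h1
  obtain ⟨k2, hk2⟩ := hβ _ hxb h2
  refine ⟨k2 - k1, ?_⟩
  set s := x / (b - a) with hsdef
  have hxs : x = s * (b - a) := by
    rw [hsdef]; field_simp
  have hb1 : C / (s * b) ^ 2 ≤ C / (s * a) ^ 2 := by
    apply div_le_div_of_nonneg_left hC.le (by positivity)
    exact pow_le_pow_left₀ (by positivity) (mul_le_mul_of_nonneg_left hab.le hs.le) 2
  have he : x - 0 - ((k2 - k1 : ℤ) : ℝ) * Real.pi + -(c * (b - a) ^ 2 / (a * b)) / (2 * x) =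
      (s * b - β - k2 * Real.pi + c / (2 * (s * b))) -
      (s * a - β - k1 * Real.pi + c / (2 * (s * a))) := by
    push_cast
    rw [hxs]
    have hs' : s ≠ 0 := hs.ne'
    have ha' : a ≠ 0 := ha.ne'
    have hb' : b ≠ 0 := hb.ne'
    have hL' : b - a ≠ 0 := hL.ne'
    field_simp
    ring
  have he2 : 2 * C * (b - a) ^ 2 / a ^ 2 / x ^ 2 = C / (s * a) ^ 2 + C / (s * a) ^ 2 := by
    rw [hxs]
    have hs' : s ≠ 0 := hs.ne'
    have ha' : a ≠ 0 := ha.ne'
    have hL' : b - a ≠ 0 := hL.ne'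
    field_simp
    ring
  rw [he, he2]
  have h3 := abs_sub (s * b - β - k2 * Real.pi + c / (2 * (s * b)))
    (s * a - β - k1 * Real.pi + c / (2 * (s * a)))
  linarith

/-- Row SHB. -/
theorem shb (ksy : Pool.Agent.BEG.KsyStmt) (frg : FrgStmt) (yas : YasStmt) (nra : NraStmt)
    (gpa : GpaStmt) (syb : SybStmt) (ine : IneStmt) (sph : SphStmt) : ShbStmt := by
  intro d p a b A hd hd3 hp ha hab hA
  obtain ⟨-, hsh, hrad⟩ := syb
  obtain ⟨hDom, hSym⟩ := hsh d a b (by omega) ha hab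
  have hL : 0 < b - a := by linarith
  have hb : 0 < b := by linarith
  have hc : cd d ≠ 0 := by
    unfold cd
    have h1 : ((d : ℝ) - 1) ≠ 0 := by
      have : (2 : ℝ) ≤ d := by exact_mod_cast hd
      intro h
      linarith
    have h2 : ((d : ℝ) - 3) ≠ 0 := by
      intro h
      apply hd3
      have : (d : ℝ) = 3 := by linarith
      exact_mod_cast this
    exact div_ne_zero (mul_ne_zero h1 h2) (by norm_num)
  have hc' : -(cd d * (b - a) ^ 2 / (a * b)) ≠ 0 := by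
    apply neg_ne_zero.2
    exact div_ne_zero (mul_ne_zero hc (pow_ne_zero 2 hL.ne')) (mul_ne_zero ha.ne' hb.ne')
  have hZ := zas_sh yas (cd d) a b ha hab
  obtain ⟨X, hX0, hX⟩ := fin_bd
    (fun n x => ¬ (x ∈ Zsh (cd d) a b ∧ (n : ℝ) * x ∈ Zsh (cd d) a b)) (2 * p + 1)
    (fun n hn => nra _ 0 _ hc' hZ n hn)
  obtain ⟨K, hK, hKI⟩ := ksy d (Sh d a b) (GO d) (by omega) hDom hSym
  obtain ⟨l, hl, u, huK, hu0, hue⟩ := ine d (Sh d a b) K hd hDom hK
    (fun k f hf => (hKI f).2 (hrad d (Sh d a b) (fun r => (r ^ 2) ^ k) f hDom hSym hf))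
    (max 1 ((X / (b - a)) ^ 2))
  have hl1 : 1 < l := lt_of_le_of_lt (le_max_left _ _) hl
  have hl2 : (X / (b - a)) ^ 2 < l := lt_of_le_of_lt (le_max_right _ _) hl
  have hl0 : 0 < l := by linarith
  set s := Real.sqrt l with hs
  have hs0 : 0 < s := Real.sqrt_pos.2 hl0
  have hsl : s ^ 2 = l := Real.sq_sqrt hl0.le
  have hXs : X / (b - a) < s := Real.lt_sqrt_of_sq_lt hl2
  have hXx : X ≤ s * (b - a) := by
    rw [div_lt_iff₀ hL] at hXs
    exact hXs.le
  have hx0 : 0 < s * (b - a) := by positivity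
  have hmem : ∀ t : ℝ, 0 < t → ∀ w, Inv (Sh d a b) (GO d) w → IsEig (Sh d a b) (t ^ 2) w →
      w ≠ 0 → t * (b - a) ∈ Zsh (cd d) a b := by
    intro t ht w hw hwe hw0
    obtain ⟨y, y', hB, h1, h2⟩ := sph d a b t w hd ha hab ht hw hwe hw0
    have e : t * (b - a) / (b - a) = t := by field_simp
    refine ⟨by positivity, y, y', hB, ?_, ?_⟩
    · rw [e]; exact h1
    · rw [e]; exact h2
  have huI : Inv (Sh d a b) (GO d) u := (hKI u).1 huK
  have hxZ : s * (b - a) ∈ Zsh (cd d) a b := hmem s hs0 u huI (by rw [hsl]; exact hue) hu0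
  have hno : ∀ n : ℕ, 1 ≤ n → (n : ℝ) * (s * (b - a)) ∉ Zsh (cd d) a b →
      ∀ w, Inv (Sh d a b) (GO d) w → IsEig (Sh d a b) ((n : ℝ) ^ 2 * l) w → w = 0 := by
    intro n hn hnZ w hw hwe
    by_contra hw0
    apply hnZ
    have hn0 : (0 : ℝ) < n := by exact_mod_cast hn
    have h := hmem (n * s) (by positivity) w hw (by rw [mul_pow, hsl]; exact hwe) hw0
    rw [mul_assoc] at h
    exact h
  refine frg d (Sh d a b) (GO d) p A l u hd hDom hSym hp hA huI hu0 hue ?_ ?_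
  · intro n _ h3 hn w hw hwe
    refine hno n (by omega) ?_ w hw hwe
    intro h
    exact hX n (by omega) hn _ hXx ⟨hxZ, h⟩
  · intro J
    obtain ⟨N, hN⟩ := gpa _ 0 _ hc' hZ (s * (b - a)) p hx0
    by_cases hcase : ∃ n1 : ℕ, Odd n1 ∧ max J N < n1 ∧ n1 ≤ max J N + 2 * p ∧
        (n1 : ℝ) * (s * (b - a)) ∈ Zsh (cd d) a b
    · obtain ⟨n1, ho1, h1, h2, h3⟩ := hcase
      have hJ := le_max_left J N
      have hN' := le_max_right J N
      refine ⟨n1, by omega, ?_⟩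
      intro n ho hn1 hn2 w hw hwe
      refine hno n (by omega) ?_ w hw hwe
      intro h
      obtain ⟨i, hi⟩ := ho
      obtain ⟨i1, hi1⟩ := ho1
      have hj := hN n1 (by omega) (i - i1) (by omega) (by omega)
      apply hj
      refine ⟨h3, ?_⟩
      have e : ((n1 : ℝ) + 2 * ((i - i1 : ℕ) : ℝ)) = (n : ℝ) := by
        have : n1 + 2 * (i - i1) = n := by omega
        exact_mod_cast this
      rw [e]
      exact h
    · refine ⟨max J N, le_max_left _ _, ?_⟩
      intro n ho hn1 hn2 w hw hwe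
      refine hno n (by omega) ?_ w hw hwe
      intro h
      exact hcase ⟨n, ho, hn1, hn2, h⟩

end Pool.Agent.BER.H12
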